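import Pool.Agent.N64.AF.SA2

/-!
# Statements A3: multiplicities
-/

set_option autoImplicit false

open CategoryTheory Limits MonoidalCategory Module
open Pool.Agent.Y112.SR Pool.Agent.Y112.KD
open Pool.Agent.Y116.MT (tr)

namespace Pool.Agent.N199.AFA3

open Pool.Agent.N64.AF

universe v u w t

section Lin

variable {Λ : Type t} [Field Λ]

theorem finrank_congr {V W : Type*} [AddCommGroup V] [Module Λ V] [AddCommGroup W] [Module Λ W]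
    (Φ : V →ₗ[Λ] W) (N : Submodule Λ V) (M : Submodule Λ W) (S : Submodule Λ V)
    (S' : Submodule Λ W) (hS : S.map Φ = S') (h : ∀ x ∈ S, Φ x ∈ M ↔ x ∈ N) :
    finrank Λ (S.map N.mkQ) = finrank Λ (S'.map M.mkQ) := by
  let g : S →ₗ[Λ] V ⧸ N := N.mkQ ∘ₗ S.subtype
  let g' : S →ₗ[Λ] W ⧸ M := M.mkQ ∘ₗ Φ ∘ₗ S.subtype
  have h1 : LinearMap.range g = S.map N.mkQ := by
    rw [LinearMap.range_comp, Submodule.range_subtype]
  have h2 : LinearMap.range g' = S'.map M.mkQ := by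
    rw [LinearMap.range_comp, LinearMap.range_comp, Submodule.range_subtype, hS]
  have h3 : LinearMap.ker g = LinearMap.ker g' := by
    ext x
    rw [LinearMap.mem_ker, LinearMap.mem_ker]
    change N.mkQ x = 0 ↔ M.mkQ (Φ x) = 0
    rw [Submodule.mkQ_apply, Submodule.mkQ_apply, Submodule.Quotient.mk_eq_zero,
      Submodule.Quotient.mk_eq_zero]
    exact (h x x.2).symm
  rw [← h1, ← h2]
  exact ((g.quotKerEquivRange.symm.trans (Submodule.quotEquivOfEq _ _ h3)).trans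
    g'.quotKerEquivRange).finrank_eq

end Lin

variable {C : Type u} [Category.{v} C] [Preadditive C] [MonoidalCategory C]
  [MonoidalPreadditive C] [SymmetricCategory C] [RightRigidCategory C]
  {Λ : Type t} [Field Λ] [Linear Λ C] [MonoidalLinear Λ C]

/-- the morphisms `e ≫ c ≫ f` -/
def sw (Λ : Type t) [Field Λ] [Linear Λ C] {Y Z : C} (e : Y ⟶ Y) (f : Z ⟶ Z) :
    Submodule Λ (Y ⟶ Z) :=
  LinearMap.range (Linear.rightComp Λ Y f ∘ₗ Linear.leftComp Λ Z e)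

set_option linter.unusedSectionVars false in
theorem mem_sw {Y Z : C} {e : Y ⟶ Y} {f : Z ⟶ Z} {x : Y ⟶ Z} :
    x ∈ sw Λ e f ↔ ∃ c : Y ⟶ Z, e ≫ c ≫ f = x := by
  unfold sw
  rw [LinearMap.mem_range]
  constructor
  · rintro ⟨c, hc⟩
    refine ⟨c, ?_⟩
    rw [← hc]
    simp
  · rintro ⟨c, hc⟩
    refine ⟨c, ?_⟩
    rw [← hc]
    simp

theorem nr_eq {Y Z : C} (e : Y ⟶ Y) (f : Z ⟶ Z) :
    nr Λ e f = finrank Λ ((sw Λ e f).map (numIdeal Λ Y Z).mkQ) := by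
  unfold nr sw
  rw [LinearMap.range_comp]

theorem nr_eq_of {Y Z Y' Z' : C} (e : Y ⟶ Y) (f : Z ⟶ Z) (e' : Y' ⟶ Y') (f' : Z' ⟶ Z')
    (Φ : (Y ⟶ Z) →ₗ[Λ] (Y' ⟶ Z')) (h1 : ∀ c, ∃ c', Φ (e ≫ c ≫ f) = e' ≫ c' ≫ f')
    (h2 : ∀ c', ∃ c, Φ (e ≫ c ≫ f) = e' ≫ c' ≫ f')
    (h3 : ∀ c, NumTriv (Φ (e ≫ c ≫ f)) ↔ NumTriv (e ≫ c ≫ f)) : nr Λ e f = nr Λ e' f' := by
  rw [nr_eq, nr_eq]
  apply finrank_congr Φ
  · ext x
    rw [Submodule.mem_map, mem_sw]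
    constructor
    · rintro ⟨y, hy, rfl⟩
      obtain ⟨c, rfl⟩ := mem_sw.1 hy
      obtain ⟨c', hc'⟩ := h1 c
      exact ⟨c', hc'.symm⟩
    · rintro ⟨c', rfl⟩
      obtain ⟨c, hc⟩ := h2 c'
      exact ⟨e ≫ c ≫ f, mem_sw.2 ⟨c, rfl⟩, hc⟩
  · intro x hx
    obtain ⟨c, rfl⟩ := mem_sw.1 hx
    exact h3 c

variable [CharZero Λ] {K : Type w} [Field K] [Algebra Λ K] {R : SuperRealisation C K}

theorem comp_left (hR : IsReal Λ R) {W Y Z : C} {f : Y ⟶ Z} (hf : NumTriv f) (a : W ⟶ Y) :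
    NumTriv (a ≫ f) := by
  have := NumTriv.comp hR hf a (𝟙 Z)
  rwa [Category.comp_id] at this

theorem comp_right (hR : IsReal Λ R) {Y Z V : C} {f : Y ⟶ Z} (hf : NumTriv f) (b : Z ⟶ V) :
    NumTriv (f ≫ b) := by
  have := NumTriv.comp hR hf (𝟙 Y) b
  rwa [Category.id_comp] at this

theorem le_finrank (hR : IsReal Λ R) {Y Z : C} {e e' : Y ⟶ Y} {f f' : Z ⟶ Z}
    (h : sw Λ e f ≤ sw Λ e' f') : nr Λ e f ≤ nr Λ e' f' := by
  rw [nr_eq, nr_eq]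
  have := finite_num hR Y Z
  exact Submodule.finrank_mono (Submodule.map_mono h)

end Pool.Agent.N199.AFA3

namespace Pool.Agent.N64.AF

open Pool.Agent.N199.AFA3

universe v u w t

variable {C : Type u} [Category.{v} C] [Preadditive C] [MonoidalCategory C]
  [MonoidalPreadditive C] [SymmetricCategory C] [RightRigidCategory C]
  {Λ : Type t} [Field Λ] [CharZero Λ] [Linear Λ C] [MonoidalLinear Λ C]
  {K : Type w} [Field K] [Algebra Λ K] {R : SuperRealisation C K}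

/-- A9 -/
theorem nr_dual (hR : IsReal Λ R) {Y Z : C} (Q Q' : C) [ExactPairing Q Q'] (e : Y ⟶ Y)
    (f : Z ⟶ Z) : nr Λ (e ▷ Q) f = nr Λ e (f ▷ Q') := by
  let Φ : (Y ⊗ Q ⟶ Z) →ₗ[Λ] (Y ⟶ Z ⊗ Q') :=
    { toFun := tensorRightHomEquiv Y Q Q' Z
      map_add' := fun a b => by
        simp only [tensorRightHomEquiv, Equiv.coe_fn_mk, MonoidalPreadditive.add_whiskerRight,
          Preadditive.comp_add]
      map_smul' := fun a b => by
        simp only [tensorRightHomEquiv, Equiv.coe_fn_mk, MonoidalLinear.smul_whiskerRight,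
          Linear.comp_smul, RingHom.id_apply] }
  have hΦ : ∀ c, Φ c = tensorRightHomEquiv Y Q Q' Z c := fun _ => rfl
  have hΦ2 : ∀ c, Φ ((e ▷ Q) ≫ c ≫ f) = e ≫ Φ c ≫ (f ▷ Q') := by
    intro c
    rw [hΦ, hΦ, ← tensorRightHomEquiv_naturality, Equiv.apply_eq_iff_eq_symm_apply,
      tensorRightHomEquiv_symm_naturality, Equiv.symm_apply_apply]
  refine nr_eq_of _ _ _ _ Φ (fun c => ⟨Φ c, hΦ2 c⟩)
    (fun c' => ⟨(tensorRightHomEquiv Y Q Q' Z).symm c', ?_⟩) ?_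
  · rw [hΦ2, hΦ, Equiv.apply_symm_apply]
  · intro c
    generalize (e ▷ Q) ≫ c ≫ f = x
    constructor
    · intro h
      have h1 : x = (Φ x) ▷ Q ≫ (α_ _ _ _).hom ≫ _ ◁ ε_ _ _ ≫ (ρ_ _).hom :=
        ((tensorRightHomEquiv Y Q Q' Z).symm_apply_apply x).symm
      rw [h1]
      exact comp_right hR (h.whiskerRight hR Q) _
    · intro h
      have h1 : Φ x = ((ρ_ _).inv ≫ (_ ◁ η_ _ _) ≫ (α_ _ _ _).inv) ≫ x ▷ Q' := by
        simp only [Category.assoc]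
        rfl
      rw [h1]
      exact comp_left hR (h.whiskerRight hR Q') _

/-- A10 -/
theorem nr_congr_left (hR : IsReal Λ R) {Y Y' Z : C} (i : Y ≅ Y') {e : Y ⟶ Y} {e' : Y' ⟶ Y'}
    (h : e ≫ i.hom = i.hom ≫ e') (f : Z ⟶ Z) : nr Λ e f = nr Λ e' f := by
  have h' : i.inv ≫ e = e' ≫ i.inv := by
    rw [Iso.inv_comp_eq, ← Category.assoc, ← h, Category.assoc, Iso.hom_inv_id, Category.comp_id]
  have hΦ : ∀ c : Y ⟶ Z, Linear.leftComp Λ Z i.inv c = i.inv ≫ c := fun _ => rfl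
  refine nr_eq_of _ _ _ _ (Linear.leftComp Λ Z i.inv) (fun c => ⟨i.inv ≫ c, ?_⟩)
    (fun c' => ⟨i.hom ≫ c', ?_⟩) ?_
  · rw [hΦ, ← Category.assoc, h', Category.assoc, Category.assoc]
  · rw [hΦ, ← Category.assoc, h']
    simp
  · intro c
    rw [hΦ]
    generalize e ≫ c ≫ f = x
    constructor
    · intro hx
      have := comp_left hR hx i.hom
      rwa [Iso.hom_inv_id_assoc] at this
    · intro hx
      exact comp_left hR hx _

/-- A11 -/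
theorem nr_congr_right (hR : IsReal Λ R) {Y Z Z' : C} (i : Z ≅ Z') (e : Y ⟶ Y) {f : Z ⟶ Z}
    {f' : Z' ⟶ Z'} (h : f ≫ i.hom = i.hom ≫ f') : nr Λ e f = nr Λ e f' := by
  have hΦ : ∀ c : Y ⟶ Z, Linear.rightComp Λ Y i.hom c = c ≫ i.hom := fun _ => rfl
  refine nr_eq_of _ _ _ _ (Linear.rightComp Λ Y i.hom) (fun c => ⟨c ≫ i.hom, ?_⟩)
    (fun c' => ⟨c' ≫ i.inv, ?_⟩) ?_
  · rw [hΦ]
    simp only [Category.assoc, h]
  · rw [hΦ]
    simp only [Category.assoc, h, Iso.inv_hom_id_assoc]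
  · intro c
    rw [hΦ]
    generalize e ≫ c ≫ f = x
    constructor
    · intro hx
      have := comp_right hR hx i.inv
      rwa [Category.assoc, Iso.hom_inv_id, Category.comp_id] at this
    · intro hx
      exact comp_right hR hx _

/-- A12 -/
theorem nr_retract (hR : IsReal Λ R) {Y Y' Z : C} (i : Y ⟶ Y') (r : Y' ⟶ Y) (h : i ≫ r = 𝟙 Y)
    (f : Z ⟶ Z) : nr Λ (r ≫ i) f = nr Λ (𝟙 Y) f := by
  have hΦ : ∀ c : Y ⟶ Z, Linear.leftComp Λ Z r c = r ≫ c := fun _ => rfl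
  symm
  refine nr_eq_of _ _ _ _ (Linear.leftComp Λ Z r) (fun c => ⟨r ≫ c, ?_⟩)
    (fun c' => ⟨i ≫ c', ?_⟩) ?_
  · rw [hΦ]
    simp only [Category.assoc, Category.id_comp]
    rw [reassoc_of% h]
  · rw [hΦ]
    simp only [Category.assoc, Category.id_comp]
  · intro c
    rw [hΦ]
    generalize 𝟙 Y ≫ c ≫ f = x
    constructor
    · intro hx
      have := comp_left hR hx i
      rwa [reassoc_of% h] at this
    · intro hx
      exact comp_left hR hx _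

/-- A13 -/
theorem nr_retract_right (hR : IsReal Λ R) {Y Z Z' : C} (i : Z ⟶ Z') (r : Z' ⟶ Z)
    (h : i ≫ r = 𝟙 Z) (e : Y ⟶ Y) : nr Λ e (r ≫ i) = nr Λ e (𝟙 Z) := by
  have hΦ : ∀ c : Y ⟶ Z, Linear.rightComp Λ Y i c = c ≫ i := fun _ => rfl
  symm
  refine nr_eq_of _ _ _ _ (Linear.rightComp Λ Y i) (fun c => ⟨c ≫ i, ?_⟩)
    (fun c' => ⟨c' ≫ r, ?_⟩) ?_
  · rw [hΦ]
    simp only [Category.assoc, Category.id_comp]
    rw [reassoc_of% h]
  · rw [hΦ]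
    simp only [Category.assoc, Category.id_comp]
  · intro c
    rw [hΦ]
    generalize e ≫ c ≫ 𝟙 Z = x
    constructor
    · intro hx
      have := comp_right hR hx r
      rwa [Category.assoc, h, Category.comp_id] at this
    · intro hx
      exact comp_right hR hx _

/-- A14 -/
theorem nr_add (hR : IsReal Λ R) {Y Z : C} {e : Y ⟶ Y} (he : NumIdem e) (f : Z ⟶ Z) :
    nr Λ e f + nr Λ (𝟙 Y - e) f = nr Λ (𝟙 Y) f := by
  have := finite_num hR Y Z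
  rw [nr_eq, nr_eq, nr_eq]
  set N := numIdeal Λ Y Z with hN
  have h1 : (sw Λ (𝟙 Y) f).map N.mkQ = (sw Λ e f).map N.mkQ ⊔ (sw Λ (𝟙 Y - e) f).map N.mkQ := by
    rw [← Submodule.map_sup]
    congr 1
    apply le_antisymm
    · intro x hx
      obtain ⟨c, rfl⟩ := mem_sw.1 hx
      rw [Submodule.mem_sup]
      refine ⟨e ≫ c ≫ f, mem_sw.2 ⟨c, rfl⟩, (𝟙 Y - e) ≫ c ≫ f, mem_sw.2 ⟨c, rfl⟩, ?_⟩
      rw [← Preadditive.add_comp, add_sub_cancel]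
    · apply sup_le
      · intro x hx
        obtain ⟨c, rfl⟩ := mem_sw.1 hx
        exact mem_sw.2 ⟨e ≫ c, by simp⟩
      · intro x hx
        obtain ⟨c, rfl⟩ := mem_sw.1 hx
        exact mem_sw.2 ⟨(𝟙 Y - e) ≫ c, by simp⟩
  have h2 : (sw Λ e f).map N.mkQ ⊓ (sw Λ (𝟙 Y - e) f).map N.mkQ = ⊥ := by
    rw [eq_bot_iff]
    rintro x ⟨hx1, hx2⟩
    obtain ⟨y, hy, rfl⟩ := Submodule.mem_map.1 hx1
    obtain ⟨y', hy', hyy'⟩ := Submodule.mem_map.1 hx2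
    obtain ⟨c, rfl⟩ := mem_sw.1 hy
    obtain ⟨c', rfl⟩ := mem_sw.1 hy'
    rw [Submodule.mkQ_apply, Submodule.mkQ_apply, Submodule.Quotient.eq] at hyy'
    rw [Submodule.mem_bot, Submodule.mkQ_apply, Submodule.Quotient.mk_eq_zero]
    have e1 : e ≫ ((𝟙 Y - e) ≫ c' ≫ f - e ≫ c ≫ f) ∈ N := comp_left hR hyy' e
    have e2 : (e ≫ e - e) ≫ (c' ≫ f) ∈ N := comp_right hR he _
    have e3 : (e ≫ e - e) ≫ (c ≫ f) ∈ N := comp_right hR he _
    have e4 : e ≫ c ≫ f = -(e ≫ ((𝟙 Y - e) ≫ c' ≫ f - e ≫ c ≫ f)) -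
        (e ≫ e - e) ≫ (c' ≫ f) - (e ≫ e - e) ≫ (c ≫ f) := by
      simp only [Preadditive.comp_sub, Preadditive.sub_comp, Category.id_comp, Category.assoc]
      abel
    rw [e4]
    exact N.sub_mem (N.sub_mem (N.neg_mem e1) e2) e3
  have h3 := Submodule.finrank_sup_add_finrank_inf_eq ((sw Λ e f).map N.mkQ)
    ((sw Λ (𝟙 Y - e) f).map N.mkQ)
  rw [h2, ← h1, finrank_bot, add_zero] at h3
  exact h3.symm

/-- A15 -/
theorem nr_le_left (hR : IsReal Λ R) {Y Z : C} (e : Y ⟶ Y) (f : Z ⟶ Z) :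
    nr Λ e f ≤ nr Λ (𝟙 Y) f := by
  apply le_finrank hR
  intro x hx
  obtain ⟨c, rfl⟩ := mem_sw.1 hx
  exact mem_sw.2 ⟨e ≫ c, by simp⟩

/-- A16 -/
theorem nr_le_right (hR : IsReal Λ R) {Y Z : C} (e : Y ⟶ Y) (f : Z ⟶ Z) :
    nr Λ e f ≤ nr Λ e (𝟙 Z) := by
  apply le_finrank hR
  intro x hx
  obtain ⟨c, rfl⟩ := mem_sw.1 hx
  exact mem_sw.2 ⟨c ≫ f, by simp⟩

set_option linter.unusedSectionVars false in
/-- A17 -/
theorem numRank_eq (S : C) : numRank Λ S = nr Λ (𝟙 (𝟙_ C)) (𝟙 S) := by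
  rw [nr_eq]
  have h1 : sw Λ (𝟙 (𝟙_ C)) (𝟙 S) = ⊤ := by
    rw [eq_top_iff]
    intro x _
    exact mem_sw.2 ⟨x, by simp⟩
  rw [h1, Submodule.map_top, Submodule.range_mkQ, finrank_top]
  rfl

/-- A18 -/
theorem nr_self (hR : IsReal Λ R) {Y W : C} (e : Y ⟶ Y) :
    nr Λ (e ▷ W) (e ▷ W) = nr Λ ((eᘁ ⊗ₘ e) ▷ W) (𝟙 W) := by
  let T := tensorLeftHomEquiv (Y ⊗ W) Y Yᘁ W
  let Φ : (Y ⊗ W ⟶ Y ⊗ W) →ₗ[Λ] ((Yᘁ ⊗ Y) ⊗ W ⟶ W) :=
    { toFun := fun c => (α_ Yᘁ Y W).hom ≫ T.symm c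
      map_add' := fun a b => by
        simp only [T, tensorLeftHomEquiv, Equiv.coe_fn_symm_mk, MonoidalPreadditive.whiskerLeft_add,
          Preadditive.add_comp, Preadditive.comp_add]
      map_smul' := fun a b => by
        simp only [T, tensorLeftHomEquiv, Equiv.coe_fn_symm_mk, MonoidalLinear.whiskerLeft_smul,
          Linear.comp_smul, Linear.smul_comp, RingHom.id_apply] }
  have hΦ : ∀ c, Φ c = (α_ Yᘁ Y W).hom ≫ T.symm c := fun _ => rfl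
  have hT : ∀ c, T.symm c = Yᘁ ◁ c ≫ (α_ _ _ _).inv ≫ ε_ _ _ ▷ _ ≫ (λ_ _).hom := fun _ => rfl
  have hT2 : ∀ c : Y ⊗ W ⟶ Y ⊗ W, T.symm (c ≫ (e ▷ W)) = eᘁ ▷ (Y ⊗ W) ≫ T.symm c := by
    intro c
    rw [hT, hT, MonoidalCategory.whiskerLeft_comp, Category.assoc,
      associator_inv_naturality_middle_assoc, ← comp_whiskerRight_assoc,
      ← rightAdjointMate_comp_evaluation, comp_whiskerRight_assoc,
      ← associator_inv_naturality_left_assoc, whisker_exchange_assoc]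
  have hΦ2 : ∀ c, Φ ((e ▷ W) ≫ c ≫ (e ▷ W)) = ((eᘁ ⊗ₘ e) ▷ W) ≫ Φ c := by
    intro c
    rw [hΦ, hΦ]
    change (α_ Yᘁ Y W).hom ≫ (tensorLeftHomEquiv (Y ⊗ W) Y Yᘁ W).symm _ = _
    rw [tensorLeftHomEquiv_symm_naturality]
    change (α_ Yᘁ Y W).hom ≫ _ ≫ T.symm _ = _
    rw [hT2, MonoidalCategory.tensorHom_def, comp_whiskerRight]
    simp only [Category.assoc]
    rw [whisker_exchange_assoc, associator_naturality_middle_assoc,
      associator_naturality_left_assoc]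
  refine nr_eq_of _ _ _ _ Φ (fun c => ⟨Φ c, ?_⟩)
    (fun c' => ⟨T ((α_ Yᘁ Y W).inv ≫ c'), ?_⟩) ?_
  · rw [hΦ2, Category.comp_id]
  · rw [hΦ2, hΦ, Equiv.symm_apply_apply, Iso.hom_inv_id_assoc, Category.comp_id]
  · intro c
    generalize (e ▷ W) ≫ c ≫ (e ▷ W) = x
    constructor
    · intro h
      have h1 : x = ((λ_ _).inv ≫ η_ Y Yᘁ ▷ _ ≫ (α_ _ _ _).hom) ≫
          Y ◁ ((α_ Yᘁ Y W).inv ≫ Φ x) := by
        rw [hΦ, Iso.inv_hom_id_assoc]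
        simp only [Category.assoc]
        exact (T.apply_symm_apply x).symm
      rw [h1]
      exact comp_left hR ((comp_left hR h _).whiskerLeft hR Y) _
    · intro h
      rw [hΦ, hT]
      exact NumTriv.comp hR (h.whiskerLeft hR Yᘁ) _ _

end Pool.Agent.N64.AF
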